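import Pool.Agent.H56.DC.Final

/-!
The rigid curves conjecture fails for `r = 3`.

For every `c > 0` there are `d, g, N` with `g - d + 3 ≥ 2`, `N < c g` and a smooth irreducible
projectively normal curve `C` in `P³` of degree `d` and genus `g`, with homogeneous ideal `I`, such that
`LocDim I N` holds: for every valuation ring `A` over `ℂ` and every family over `A` of pairs
`(curve, line bundle)` with `h⁰ ≥ 4` and special fibre `(C, O_C(1))`, given by its ring of sections `T`,
the generic pair is `(C', O(1))` for a curve `C'` in `P³` defined over a field of transcendence degree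
at most `N` over `ℂ`. Apply this to a valuation ring which dominates the local ring at the point
`(C, O_C(1))` of a component of `W^3_{d,g}` (of an atlas): the component has dimension at most `N`.

`C` is defined by the maximal minors of a `t × (t + 1)` matrix of linear forms;
`d = t (t + 1) / 2`, `g = 1 + t (t + 1) (2 t - 5) / 6`, `N = 4 t (t + 1)`.
-/

set_option autoImplicit false

open MvPolynomial Pool.Agent.H56.DC.St in
theorem Pool.Agent.Results.MP_d0789b_ag.RigidCurves.result (c : ℝ) (hc : 0 < c) :
    ∃ (d g N : ℕ) (I : Ideal (MvPolynomial (Fin 4) ℂ)), 2 ≤ g ∧ (2 : ℤ) ≤ g - d + 3 ∧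
      IsCurve I d g ∧ ProjNormal I ∧ DimEq I 1 4 ∧ LocDim I N ∧ (N : ℝ) < c * g :=
  Pool.Agent.H56.DC.final c hc
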